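import Pool.Agent.GS78.Final

/-!
# An additive bound for bounded pieces hanging from a directed path

Every tournament on `k + 4 ^ (C + 2)` vertices contains every oriented tree with `k` edges which consists of a directed
path `q 0 → q 1 → ... → q m` and of pieces with at most `C` vertices hanging from it, where the only in-neighbour of
`q i`, for `i ≥ 1`, is `q (i - 1)` (and the same for the reversed trees).
-/

namespace Pool.Agent.Attic.MP_ae3412_co.PathWithBoundedPieces

theorem result : ∀ C k : ℕ, ∀ R : Fin (k + 4 ^ (C + 2)) → Fin (k + 4 ^ (C + 2)) → Prop,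
    (∀ a, ¬ R a a) → (∀ a b, a ≠ b → R a b ∨ R b a) → (∀ a b, R a b → ¬ R b a) →
    ∀ E : Fin (k + 1) → Fin (k + 1) → Prop,
      (∀ a b, E a b → ¬ E b a) →
      (SimpleGraph.fromRel E).IsTree →
      ∀ (m : ℕ) (q : Fin (m + 1) → Fin (k + 1)), Function.Injective q →
      (((∀ i : Fin m, E (q i.castSucc) (q i.succ)) ∧
          ∀ (i : Fin m) (v : Fin (k + 1)), E v (q i.succ) → v = q i.castSucc) ∨
        ((∀ i : Fin m, E (q i.succ) (q i.castSucc)) ∧
          ∀ (i : Fin m) (v : Fin (k + 1)), E (q i.succ) v → v = q i.castSucc)) →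
      (∀ i : Fin (m + 1), {v : Fin (k + 1) | ((SimpleGraph.fromRel E).deleteEdges
        {e | ∃ j : Fin m, e = s(q j.castSucc, q j.succ)}).Reachable (q i) v}.ncard ≤ C) →
      ∃ f : Fin (k + 1) → Fin (k + 4 ^ (C + 2)), Function.Injective f ∧ ∀ a b, E a b → R (f a) (f b) := by
  intro C k R h1 h2 h3 E h4 h5 m q hq hor hC
  have hnum : k + 1 + (C * C + 6 * 2 ^ C + C + 2 ^ (2 * C + 1)) ≤ k + 4 ^ (C + 2) := by
    have := GS78.num_bound C
    omega
  rcases hor with ⟨ha, hb⟩ | ⟨ha, hb⟩
  · exact GS78.final_out ⟨h1, h2, h3⟩ h4 h5 C m q hq ha hb hC hnum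
  · have hG : SimpleGraph.fromRel (fun a b => E b a) = SimpleGraph.fromRel E := by
      ext a b
      simp only [SimpleGraph.fromRel_adj]
      tauto
    obtain ⟨f, hf1, hf2⟩ := GS78.final_out (R := fun a b => R b a) (E := fun a b => E b a)
      ⟨h1, fun a b hab => h2 b a hab.symm, fun a b hab => h3 b a hab⟩ (fun a b hab => h4 b a hab) (by rw [hG]; exact h5) C m q hq
      ha hb (by rw [hG]; exact hC) hnum
    exact ⟨f, hf1, fun a b hab => hf2 b a hab⟩

end Pool.Agent.Attic.MP_ae3412_co.PathWithBoundedPieces
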